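import Pool.Agent.Y796.RI.Pos

/-!
# Rioul's question for real quadrature mirror filters with four coefficients
-/

open Pool.Agent.TH311.Rioul Pool.Agent.Y796.RI

namespace Pool.Agent.Results.MP_057a77_an.FourCoefficients

/-- Let `φ ≠ 0` be continuous with compact support and `φ(t/2) = d₀ φ(t) + ... + d₃ φ(t - 3)` with
real coefficients such that `|D(ξ)|² + |D(ξ+1/2)|² = 4` for all `ξ`.  Then
`inf_ξ |Zφ(0, ξ)| > 0`, so `t₀ = 0` is a possible choice. -/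
theorem result (φ : ℝ → ℂ) (d : ℤ →₀ ℂ) (hcont : Continuous φ) (hc : HasCompactSupport φ)
    (hφ : φ ≠ 0) (hd : Dilation φ d)
    (hq : ∀ ξ : ℝ, ‖symbol d ξ‖ ^ 2 + ‖symbol d (ξ + 1 / 2)‖ ^ 2 = 4)
    (hreal : ∀ k, (d k).im = 0) (hsupp : ∀ k ∈ d.support, 0 ≤ k ∧ k ≤ 3) :
    0 < ⨅ ξ : ℝ, ‖zak φ 0 ξ‖ :=
  four_tap hcont hc hφ hd hq hreal hsupp

end Pool.Agent.Results.MP_057a77_an.FourCoefficients
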