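import Pool.Agent.Y796.RI.Ex

/-!
# Rioul's conjecture on Zak transforms of refinable functions: which symbols violate it through a
zero line, for which quadrature mirror filters this happens, and counterexamples of every
smoothness class with zero lines at all `ξ = j/m`
-/

open Pool.Agent.TH311.Rioul Pool.Agent.Y796.RI

namespace Pool.Agent.Results.MP_057a77_an.UnstableSymbols

/--
`zak`, `symbol`, `Dilation`, `SymmetricZeros` are the Zak transform, the symbol, the dilation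
equation and the symmetric zero pairs of the problem.  `CyclicZero d ξ` says that `2ⁿξ - ξ` is an
integer for some `n ≥ 1` and `D(2ⁱξ + 1/2) = 0` for all `i < n`.  `QMF d` says
`|D(ξ)|² + |D(ξ+1/2)|² = 4` for all `ξ`.  `OrthShifts φ` says `∫ φ(t) conj φ(t-k) dt = 0` for all
integers `k ≠ 0`.  `RioulConclusion φ` says that some `t₀` has `inf_ξ |Zφ(t₀, ξ)| > 0`.
-/
theorem result :
    -- (1) classification of the zero lines
    (∀ (φ : ℝ → ℂ) (d : ℤ →₀ ℂ), Continuous φ → HasCompactSupport φ → φ ≠ 0 → Dilation φ d →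
      ¬ SymmetricZeros d → ∀ ξ : ℝ, (∀ n : ℤ, ξ ≠ n) →
        ((∀ t : ℝ, zak φ t ξ = 0) ↔ CyclicZero d ξ)) ∧
    -- (2) quadrature mirror filters: a zero line exists exactly when the shifts are not
    -- orthogonal, and then Rioul's conclusion fails
    (∀ (φ : ℝ → ℂ) (d : ℤ →₀ ℂ), Continuous φ → HasCompactSupport φ → φ ≠ 0 → Dilation φ d →
      QMF d → ((∃ ξ : ℝ, ∀ t : ℝ, zak φ t ξ = 0) ↔ ¬ OrthShifts φ) ∧
        (¬ OrthShifts φ → ¬ RioulConclusion φ)) ∧
    -- (3) every refinable function whose symbol vanishes at 1/2 has stretched counterexamples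
    (∀ (φ : ℝ → ℂ) (d : ℤ →₀ ℂ), Continuous φ → HasCompactSupport φ → φ ≠ 0 → Dilation φ d →
      symbol d (1 / 2) = 0 → ∀ m : ℕ, Odd m → 3 ≤ m →
        ∃ dm : ℤ →₀ ℂ, (∀ ξ : ℝ, symbol dm ξ = symbol d (m * ξ)) ∧
          Dilation (fun t => φ (t / m)) dm ∧
          (¬ SymmetricZeros d → ¬ SymmetricZeros dm) ∧ (QMF d → QMF dm) ∧
          (∀ j : ℤ, ¬ (m : ℤ) ∣ j → ∀ t : ℝ, zak (fun t => φ (t / m)) t (j / m) = 0) ∧
          ¬ RioulConclusion fun t => φ (t / m)) ∧
    -- (4) counterexamples of every smoothness class, real valued, with all lines `j/m`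
    (∀ (r m : ℕ), Odd m → 3 ≤ m → ∃ (φ : ℝ → ℂ) (d : ℤ →₀ ℂ),
      ContDiff ℝ r φ ∧ HasCompactSupport φ ∧ φ ≠ 0 ∧ (∀ t, (φ t).im = 0) ∧ Dilation φ d ∧
      ¬ SymmetricZeros d ∧ symbol d 0 = 2 ∧ (r = 0 → QMF d) ∧
      (∀ j : ℤ, ¬ (m : ℤ) ∣ j → ∀ t : ℝ, zak φ t (j / m) = 0) ∧ ¬ RioulConclusion φ) := by
  refine ⟨?_, ?_, ?_, ?_⟩
  · intro φ d hcont hc hφ hd hns ξ hξ
    exact classification hcont hc hφ hd hns hξ
  · intro φ d hcont hc hφ hd hq
    have h := dichotomy hcont hc hφ hd hq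
    exact ⟨h, fun ho => fails_of_line (h.2 ho)⟩
  · intro φ d hcont hc hφ hd h2 m hm hm3
    have hm0 : m ≠ 0 := by omega
    have hl : ∀ j : ℤ, ¬ (m : ℤ) ∣ j → ∀ t : ℝ, zak (fun t => φ (t / m)) t (j / m) = 0 :=
      fun j hj t => stretch_lines hcont hc hd h2 hm hj t
    refine ⟨stretch m d, symbol_stretch m d, dilation_stretch hm0 hd,
      not_symmetric_stretch hm, qmf_stretch hm, hl, fails_of_line ⟨(1 : ℤ) / m, hl 1 ?_⟩⟩
    intro h
    have := Int.le_of_dvd one_pos h
    omega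
  · intro r m hm hm3
    have hm0 : m ≠ 0 := by omega
    have hl : ∀ j : ℤ, ¬ (m : ℤ) ∣ j → ∀ t : ℝ,
        zak (fun t => phiS r (t / m)) t (j / m) = 0 :=
      fun j hj t => stretch_lines (phiS_continuous r) (phiS_compact r) (phiS_dilation r)
        (dS_half r) hm hj t
    refine ⟨fun t => phiS r (t / m), stretch m (dS r), ?_, stretch_compact (phiS_compact r) hm0,
      stretch_ne_zero (phiS_ne_zero r) hm0, ?_, dilation_stretch hm0 (phiS_dilation r),
      not_symmetric_stretch hm (dS_not_symmetric r), ?_, ?_, hl,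
      fails_of_line ⟨(1 : ℤ) / m, hl 1 ?_⟩⟩
    · exact (phiS_contDiff r).comp (contDiff_id.div_const _)
    · intro t
      obtain ⟨f, hf⟩ := phiS_real r
      show (phiS r (t / m)).im = 0
      rw [hf, Complex.ofReal_im]
    · rw [symbol_stretch, mul_zero, dS_zero]
    · rintro rfl
      exact qmf_stretch hm dC_qmf
    · intro h
      have := Int.le_of_dvd one_pos h
      omega

end Pool.Agent.Results.MP_057a77_an.UnstableSymbols
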